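import Pool.Agent.TH700.PA.Parts
import Mathlib.Data.Nat.Choose.Bounds
import Mathlib.Data.Nat.Factorial.BigOperators

/-!
# Cliques and tree tensor networks: edges of the complete graph, balanced cuts, counting
-/

set_option autoImplicit false

open Finset

namespace Pool.Agent.Helper41.TC

open Pool.Agent.TH700.PA

/-- The edges of the complete graph on `Fin n`. -/
abbrev Edge (n : ℕ) : Type := {p : Fin n × Fin n // p.1 < p.2}

/-- `Q` is a clique of the graph `x`. -/
def IsClique {n : ℕ} (x : Edge n → Bool) (Q : Finset (Fin n)) : Prop :=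
  ∀ e : Edge n, e.1.1 ∈ Q → e.1.2 ∈ Q → x e = true

variable {n : ℕ}

/-- The graph whose edges are the pairs in `S`. -/
def cg (S : Finset (Fin n)) : Edge n → Bool := fun e => decide (e.1.1 ∈ S ∧ e.1.2 ∈ S)

theorem cg_eq_true {S : Finset (Fin n)} {e : Edge n} :
    cg S e = true ↔ e.1.1 ∈ S ∧ e.1.2 ∈ S := by
  unfold cg
  exact decide_eq_true_iff

theorem isClique_cg (S : Finset (Fin n)) : IsClique (cg S) S :=
  fun _ h1 h2 => cg_eq_true.2 ⟨h1, h2⟩

/-- The edges in `S`. -/
def ed (S : Finset (Fin n)) : Finset (Edge n) := univ.filter (fun e => e.1.1 ∈ S ∧ e.1.2 ∈ S)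

theorem mem_ed {S : Finset (Fin n)} {e : Edge n} : e ∈ ed S ↔ e.1.1 ∈ S ∧ e.1.2 ∈ S := by
  unfold ed
  simp

theorem card_ed (S : Finset (Fin n)) : 2 * (ed S).card + S.card = S.card * S.card := by
  have h1 : (ed S).card = (S.offDiag.filter (fun p => p.1 < p.2)).card := by
    refine card_bij (fun e _ => e.1) ?_ ?_ ?_
    · intro e he
      rw [mem_ed] at he
      rw [mem_filter, mem_offDiag]
      exact ⟨⟨he.1, he.2, e.2.ne⟩, e.2⟩
    · intro e _ e' _ h
      exact Subtype.ext h
    · intro p hp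
      rw [mem_filter, mem_offDiag] at hp
      exact ⟨⟨p, hp.2⟩, mem_ed.2 ⟨hp.1.1, hp.1.2.1⟩, rfl⟩
  have h2 : (S.offDiag.filter (fun p => ¬ p.1 < p.2)).card =
      (S.offDiag.filter (fun p => p.1 < p.2)).card := by
    refine card_bij (fun p _ => p.swap) ?_ ?_ ?_
    · intro p hp
      rw [mem_filter, mem_offDiag] at hp ⊢
      exact ⟨⟨hp.1.2.1, hp.1.1, hp.1.2.2.symm⟩, lt_of_le_of_ne (not_lt.1 hp.2) hp.1.2.2.symm⟩
    · intro p _ p' _ h
      exact Prod.swap_injective h
    · intro p hp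
      rw [mem_filter, mem_offDiag] at hp
      refine ⟨p.swap, ?_, Prod.swap_swap p⟩
      rw [mem_filter, mem_offDiag]
      exact ⟨⟨hp.1.2.1, hp.1.1, hp.1.2.2.symm⟩, not_lt.2 hp.2.le⟩
  have h3 := card_filter_add_card_filter_not (s := S.offDiag) (fun p => p.1 < p.2)
  have h4 := offDiag_card S
  have h5 : S.card ≤ S.card * S.card := Nat.le_mul_self _
  rw [h1]
  omega

theorem card_edge (n : ℕ) : 2 * Fintype.card (Edge n) + n = n * n := by
  have h := card_ed (n := n) univ
  have h1 : ed (univ : Finset (Fin n)) = univ := by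
    ext e
    simp [mem_ed]
  rw [h1, card_univ, card_univ, Fintype.card_fin] at h
  exact h

/-- The edge joining two vertices. -/
theorem exists_edge {u v : Fin n} (h : u ≠ v) :
    ∃ e : Edge n, (e.1.1 = u ∧ e.1.2 = v) ∨ (e.1.1 = v ∧ e.1.2 = u) := by
  rcases lt_or_gt_of_ne h with h1 | h1
  · exact ⟨⟨(u, v), h1⟩, Or.inl ⟨rfl, rfl⟩⟩
  · exact ⟨⟨(v, u), h1⟩, Or.inr ⟨rfl, rfl⟩⟩

/-- `e` joins `u` and `v`. -/
def Joins (e : Edge n) (u v : Fin n) : Prop := (e.1.1 = u ∧ e.1.2 = v) ∨ (e.1.1 = v ∧ e.1.2 = u)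

theorem Joins.symm {e : Edge n} {u v : Fin n} (h : Joins e u v) : Joins e v u := Or.symm h

theorem Joins.unique {e e' : Edge n} {u v : Fin n} (h : Joins e u v) (h' : Joins e' u v) :
    e = e' := by
  have h1 := e.2
  have h2 := e'.2
  apply Subtype.ext
  rcases h with h | h <;> rcases h' with h' | h'
  · exact Prod.ext (h.1.trans h'.1.symm) (h.2.trans h'.2.symm)
  · rw [h.1, h.2] at h1
    rw [h'.1, h'.2] at h2
    exact absurd h1 (not_lt.2 h2.le)
  · rw [h.1, h.2] at h1
    rw [h'.1, h'.2] at h2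
    exact absurd h1 (not_lt.2 h2.le)
  · exact Prod.ext (h.1.trans h'.1.symm) (h.2.trans h'.2.symm)

theorem Joins.mem_ed {e : Edge n} {u v : Fin n} (h : Joins e u v) {S : Finset (Fin n)}
    (hu : u ∈ S) (hv : v ∈ S) : e ∈ ed S := by
  rw [TC.mem_ed]
  rcases h with h | h
  · rw [h.1, h.2]; exact ⟨hu, hv⟩
  · rw [h.1, h.2]; exact ⟨hv, hu⟩

theorem Joins.of_mem {e : Edge n} {u v : Fin n} (h : Joins e u v) {S : Finset (Fin n)}
    (he : e ∈ ed S) : u ∈ S ∧ v ∈ S := by
  rw [TC.mem_ed] at he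
  rcases h with h | h
  · rw [h.1, h.2] at he; exact he
  · rw [h.1, h.2] at he; exact he.symm

theorem Joins.cg {e : Edge n} {u v : Fin n} (h : Joins e u v) {S : Finset (Fin n)} :
    TC.cg S e = true ↔ u ∈ S ∧ v ∈ S := by
  rw [cg_eq_true]
  rcases h with h | h
  · rw [h.1, h.2]
  · rw [h.1, h.2]; exact and_comm

theorem joins_self (e : Edge n) : Joins e e.1.1 e.1.2 := Or.inl ⟨rfl, rfl⟩

theorem IsClique.joins {x : Edge n → Bool} {Q : Finset (Fin n)} (hQ : IsClique x Q) {e : Edge n}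
    {u v : Fin n} (h : Joins e u v) (hu : u ∈ Q) (hv : v ∈ Q) : x e = true := by
  rcases h with h | h
  · exact hQ e (by rw [h.1]; exact hu) (by rw [h.2]; exact hv)
  · exact hQ e (by rw [h.1]; exact hv) (by rw [h.2]; exact hu)

/-- The number of leaves is the number of readings. -/
theorem size_eq {K V Al W : Type} [Fintype V] (T : Net K V Al W) :
    T.size + 1 = 2 * ∑ v, T.reads v := by
  classical
  induction T with
  | leaf v f =>
    unfold Net.size Net.reads
    rw [sum_ite_eq univ v (fun _ => 1)]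
    simp
  | node l r c hl hr =>
    have h : ∀ v, (Net.node l r c).reads v = l.reads v + r.reads v := fun _ => rfl
    simp only [h, sum_add_distrib]
    unfold Net.size
    omega

theorem size_of_once {K W : Type} (T : Net K (Edge n) Bool W) (h : ∀ e, T.reads e = 1) :
    T.size + 1 ≤ n ^ 2 := by
  rw [size_eq, sum_congr rfl fun e _ => h e, sum_const, card_univ, smul_eq_mul, mul_one]
  have := card_edge n
  rw [pow_two]
  omega

/-- A balanced cut. -/
theorem balanced {K V Al W : Type} [Fintype V] [DecidableEq V] (E : Finset V) (hE : 2 ≤ E.card)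
    (T : Net K V Al W) :
    2 * E.card < 3 * (E ∩ rdv T).card →
    ∃ A ∈ cutsv T, E.card ≤ 3 * (E ∩ A).card ∧ 3 * (E ∩ A).card ≤ 2 * E.card := by
  classical
  induction T with
  | leaf v f =>
    intro h
    have h1 : E ∩ rdv (Net.leaf (K := K) (W := W) v f) ⊆ {v} := by
      intro u hu
      rw [mem_inter, mem_rdv_leaf] at hu
      exact mem_singleton.2 hu.2
    have h2 := card_le_card h1
    rw [card_singleton] at h2
    omega
  | node l r c hl hr =>
    intro h
    have h1 : E ∩ rdv (Net.node l r c) ⊆ (E ∩ rdv l) ∪ (E ∩ rdv r) := by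
      intro u hu
      rw [mem_inter, mem_rdv_node] at hu
      rw [mem_union, mem_inter, mem_inter]
      tauto
    have h2 := (card_le_card h1).trans (card_union_le _ _)
    by_cases h3 : (E ∩ rdv r).card ≤ (E ∩ rdv l).card
    · by_cases h4 : 3 * (E ∩ rdv l).card ≤ 2 * E.card
      · exact ⟨rdv l, mem_cutsv_node.2 (Or.inr (Or.inl (rdv_mem_cutsv l))), by omega, h4⟩
      · obtain ⟨A, hA, h5⟩ := hl (by omega)
        exact ⟨A, mem_cutsv_node.2 (Or.inr (Or.inl hA)), h5⟩
    · by_cases h4 : 3 * (E ∩ rdv r).card ≤ 2 * E.card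
      · exact ⟨rdv r, mem_cutsv_node.2 (Or.inr (Or.inr (rdv_mem_cutsv r))), by omega, h4⟩
      · obtain ⟨A, hA, h5⟩ := hr (by omega)
        exact ⟨A, mem_cutsv_node.2 (Or.inr (Or.inr hA)), h5⟩

theorem pow_le_choose (k : ℕ) (hk : k ≤ n) : n ^ k ≤ k ^ k * n.choose k := by
  have h1 : n ^ k * k.factorial ≤ k ^ k * n.descFactorial k := by
    rw [← Nat.descFactorial_self k, Nat.descFactorial_eq_prod_range, Nat.descFactorial_eq_prod_range,
      ← card_range k, ← prod_const, ← prod_const, card_range, ← prod_mul_distrib,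
      ← prod_mul_distrib]
    refine prod_le_prod' fun i hi => ?_
    rw [mem_range] at hi
    obtain ⟨a, rfl⟩ := Nat.exists_eq_add_of_lt hi
    obtain ⟨b, rfl⟩ := Nat.exists_eq_add_of_le hk
    have e1 : i + a + 1 - i = a + 1 := by omega
    have e2 : i + a + 1 + b - i = a + 1 + b := by omega
    rw [e1, e2]
    nlinarith [Nat.zero_le (i * b)]
  rw [Nat.descFactorial_eq_factorial_mul_choose] at h1
  have h2 : k.factorial * (n ^ k) ≤ k.factorial * (k ^ k * n.choose k) := by
    calc k.factorial * (n ^ k) = n ^ k * k.factorial := mul_comm _ _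
      _ ≤ _ := h1
      _ = _ := by ring
  exact Nat.le_of_mul_le_mul_left h2 (Nat.factorial_pos k)

/-- Counting by labels. -/
theorem card_le_labels {α β : Type} [DecidableEq β] (s : Finset α) (T : Finset β) (c : α → β)
    (h1 : ∀ x ∈ s, c x ∈ T) (m : ℕ) (h2 : ∀ b ∈ T, (s.filter (fun x => c x = b)).card ≤ m) :
    s.card ≤ T.card * m := by
  rw [mul_comm]
  exact card_le_mul_card_image_of_maps_to h1 m h2

theorem card_powersetCard_le (j : ℕ) :
    (powersetCard j (univ : Finset (Fin n))).card ≤ n ^ j := by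
  rw [card_powersetCard, card_univ, Fintype.card_fin]
  exact Nat.choose_le_pow n j

end Pool.Agent.Helper41.TC
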