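import Pool.Agent.Helper41.TC.Basic

/-!
# The exact clique problem: fooling sets of cliques for a balanced cut
-/

set_option autoImplicit false

open Finset

namespace Pool.Agent.Helper41.TC

open Pool.Agent.TH700.PA

/-- A large set that contains no `a v` and no `b v` for its elements `v`. -/
theorem exists_indep {α : Type} [DecidableEq α] (a b : α → α) : ∀ (m : ℕ) (M : Finset α),
    M.card = m → (∀ v ∈ M, a v ≠ v ∧ b v ≠ v) →
    ∃ X ⊆ M, M.card ≤ 5 * X.card ∧ ∀ v ∈ X, a v ∉ X ∧ b v ∉ X := by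
  intro m
  induction m using Nat.strong_induction_on with
  | _ m ih =>
    intro M hM hab
    rcases M.eq_empty_or_nonempty with rfl | hne
    · exact ⟨∅, subset_rfl, by simp, fun v hv => absurd hv (notMem_empty v)⟩
    -- a vertex of in-degree at most two
    obtain ⟨v, hv, hdeg⟩ : ∃ v ∈ M, (M.filter (fun u => a u = v)).card +
        (M.filter (fun u => b u = v)).card ≤ 2 := by
      by_contra hcon
      push Not at hcon
      have h1 : ∑ v ∈ M, 3 ≤ ∑ v ∈ M, ((M.filter (fun u => a u = v)).card +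
          (M.filter (fun u => b u = v)).card) := sum_le_sum fun v hv => hcon v hv
      rw [sum_add_distrib, sum_const, smul_eq_mul] at h1
      have h2 : ∀ f : α → α, ∑ v ∈ M, (M.filter (fun u => f u = v)).card ≤ M.card := by
        intro f
        rw [← card_biUnion]
        · refine card_le_card fun u hu => ?_
          rw [mem_biUnion] at hu
          obtain ⟨v, _, hv⟩ := hu
          exact (mem_filter.1 hv).1
        · intro v _ w _ hvw
          simp only [Function.onFun]
          rw [disjoint_left]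
          intro u hu hu'
          exact hvw ((mem_filter.1 hu).2.symm.trans (mem_filter.1 hu').2)
      have h3 := h2 a
      have h4 := h2 b
      have h5 := card_pos.2 hne
      omega
    set B : Finset α := ({v, a v, b v} : Finset α) ∪ (M.filter (fun u => a u = v) ∪
      M.filter (fun u => b u = v)) with hB
    have hBc : B.card ≤ 5 := by
      have h1 := card_union_le ({v, a v, b v} : Finset α) (M.filter (fun u => a u = v) ∪
        M.filter (fun u => b u = v))
      have h2 := card_union_le (M.filter (fun u => a u = v)) (M.filter (fun u => b u = v))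
      have h3 := card_le_three (a := v) (b := a v) (c := b v)
      rw [hB]
      omega
    have h6 : M.card ≤ (M \ B).card + B.card := by
      have := le_card_sdiff B M
      omega
    have h7 : (M \ B).card < m := by
      rw [← hM]
      refine card_lt_card ⟨sdiff_subset, fun h => ?_⟩
      have := h hv
      rw [mem_sdiff] at this
      exact this.2 (by rw [hB]; simp)
    obtain ⟨X, hX, hc, hXi⟩ := ih _ h7 (M \ B) rfl fun u hu => hab u (mem_sdiff.1 hu).1
    have hvX : v ∉ X := fun h => (mem_sdiff.1 (hX h)).2 (by rw [hB]; simp)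
    refine ⟨insert v X, ?_, ?_, ?_⟩
    · intro u hu
      rw [mem_insert] at hu
      rcases hu with rfl | hu
      · exact hv
      · exact (mem_sdiff.1 (hX hu)).1
    · rw [card_insert_of_notMem hvX]
      omega
    · intro u hu
      rw [mem_insert] at hu
      rcases hu with rfl | hu
      · rw [mem_insert, mem_insert]
        refine ⟨?_, ?_⟩
        · rintro (h | h)
          · exact (hab u hv).1 h
          · exact (mem_sdiff.1 (hX h)).2 (by rw [hB]; simp)
        · rintro (h | h)
          · exact (hab u hv).2 h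
          · exact (mem_sdiff.1 (hX h)).2 (by rw [hB]; simp)
      · have h8 := mem_sdiff.1 (hX hu)
        rw [mem_insert, mem_insert]
        refine ⟨?_, ?_⟩
        · rintro (h | h)
          · exact h8.2 (by rw [hB]; simp [h8.1, h])
          · exact (hXi u hu).1 h
        · rintro (h | h)
          · exact h8.2 (by rw [hB]; simp [h8.1, h])
          · exact (hXi u hu).2 h

variable {n : ℕ}

/-- For a balanced colouring of the edges in `S` there is a set `R` in `S`, smaller than `S` by a ninth,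
such that every other vertex of `S` has edges of both colours to `R`. -/
theorem core (S : Finset (Fin n)) (A : Finset (Edge n)) (hk : 3 ≤ S.card)
    (h1 : (ed S).card ≤ 3 * (ed S ∩ A).card) (h2 : 3 * (ed S ∩ A).card ≤ 2 * (ed S).card) :
    ∃ R ⊆ S, R.card = S.card - (S.card + 8) / 9 ∧ ∀ v ∈ S, v ∉ R →
      (∃ r ∈ R, ∃ e ∈ A, Joins e v r) ∧ (∃ r ∈ R, ∃ e, e ∉ A ∧ Joins e v r) := by
  classical
  set M : Finset (Fin n) := S.filter (fun v => (∃ u ∈ S, ∃ e ∈ A, Joins e v u) ∧
    (∃ u ∈ S, ∃ e, e ∉ A ∧ Joins e v u)) with hM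
  have hMS : M ⊆ S := filter_subset _ _
  have hmono : ed S ∩ A ⊆ ed M ∨ ed S \ A ⊆ ed M := by
    by_contra hcon
    rw [not_or, not_subset, not_subset] at hcon
    obtain ⟨⟨e, he, heM⟩, e', he', heM'⟩ := hcon
    rw [mem_inter] at he
    rw [mem_sdiff] at he'
    -- a vertex without edges outside `A`
    obtain ⟨v, hv, hvred, hvb⟩ : ∃ v ∈ S, (∃ u ∈ S, ∃ e ∈ A, Joins e v u) ∧
        ¬ ∃ u ∈ S, ∃ e, e ∉ A ∧ Joins e v u := by
      by_contra hno
      push Not at hno
      apply heM
      have hS := mem_ed.1 he.1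
      rw [mem_ed]
      have r1 : ∃ u ∈ S, ∃ e ∈ A, Joins e (e.1.1) u := ⟨_, hS.2, e, he.2, joins_self e⟩
      refine ⟨mem_filter.2 ⟨hS.1, ?_, ?_⟩, mem_filter.2 ⟨hS.2, ?_, ?_⟩⟩
      · exact ⟨e.1.2, hS.2, e, he.2, joins_self e⟩
      · exact hno _ hS.1 ⟨e.1.2, hS.2, e, he.2, joins_self e⟩
      · exact ⟨e.1.1, hS.1, e, he.2, (joins_self e).symm⟩
      · exact hno _ hS.2 ⟨e.1.1, hS.1, e, he.2, (joins_self e).symm⟩
    obtain ⟨v', hv', hvblue, hvr⟩ : ∃ v ∈ S, (∃ u ∈ S, ∃ e, e ∉ A ∧ Joins e v u) ∧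
        ¬ ∃ u ∈ S, ∃ e ∈ A, Joins e v u := by
      by_contra hno
      push Not at hno
      apply heM'
      have hS := mem_ed.1 he'.1
      rw [mem_ed]
      refine ⟨mem_filter.2 ⟨hS.1, ?_, ?_⟩, mem_filter.2 ⟨hS.2, ?_, ?_⟩⟩
      · exact hno _ hS.1 ⟨e'.1.2, hS.2, e', he'.2, joins_self e'⟩
      · exact ⟨e'.1.2, hS.2, e', he'.2, joins_self e'⟩
      · exact hno _ hS.2 ⟨e'.1.1, hS.1, e', he'.2, (joins_self e').symm⟩
      · exact ⟨e'.1.1, hS.1, e', he'.2, (joins_self e').symm⟩
    have hne : v ≠ v' := by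
      rintro rfl
      exact hvr hvred
    obtain ⟨g, hg⟩ := exists_edge hne
    by_cases hgA : g ∈ A
    · exact hvr ⟨v, hv, g, hgA, Or.symm hg⟩
    · exact hvb ⟨v', hv', g, hgA, hg⟩
  have hcard : (ed S).card ≤ 3 * (ed M).card := by
    rcases hmono with h | h
    · have := card_le_card h
      omega
    · have h3 := card_le_card h
      have h4 := card_sdiff_add_card_inter (ed S) A
      omega
  have hred : ∀ v ∈ M, ∃ u, u ∈ S ∧ u ≠ v ∧ ∃ e ∈ A, Joins e v u := by
    intro v hv
    obtain ⟨u, hu, e, he, hj⟩ := (mem_filter.1 hv).2.1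
    refine ⟨u, hu, ?_, e, he, hj⟩
    rintro rfl
    have := e.2
    rcases hj with hj | hj <;> · rw [hj.1, hj.2] at this; exact lt_irrefl _ this
  have hblue : ∀ v ∈ M, ∃ u, u ∈ S ∧ u ≠ v ∧ ∃ e, e ∉ A ∧ Joins e v u := by
    intro v hv
    obtain ⟨u, hu, e, he, hj⟩ := (mem_filter.1 hv).2.2
    refine ⟨u, hu, ?_, e, he, hj⟩
    rintro rfl
    have := e.2
    rcases hj with hj | hj <;> · rw [hj.1, hj.2] at this; exact lt_irrefl _ this
  choose! a ha using hred
  choose! b hb using hblue
  obtain ⟨X, hXM, hXc, hXi⟩ := exists_indep a b M.card M rfl fun v hv => ⟨(ha v hv).2.1, (hb v hv).2.1⟩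
  have hXS : X ⊆ S := hXM.trans hMS
  have hlow : (S.card + 8) / 9 ≤ X.card := by
    have e1 := card_ed S
    have e2 := card_ed M
    by_contra hcon
    have h3 : 9 * X.card + 1 ≤ S.card := by omega
    generalize S.card = k at *
    generalize M.card = m at *
    generalize X.card = x at *
    generalize (ed S).card = p at *
    generalize (ed M).card = q at *
    zify at *
    have hx : 1 ≤ x := by
      by_contra hx
      have hx0 : x = 0 := by omega
      subst hx0
      have hm0 : m = 0 := by omega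
      subst hm0
      have : q = 0 := by omega
      subst this
      have : p = 0 := by omega
      subst this
      nlinarith
    zify at hx
    have f1 : (0 : ℤ) ≤ (5 * x - m) * (5 * x + m - 1) := by
      apply mul_nonneg <;> omega
    have f2 : (0 : ℤ) ≤ (k - 9 * x - 1) * (k + 9 * x) := by
      apply mul_nonneg <;> omega
    nlinarith
  obtain ⟨X0, hX0, hX0c⟩ := exists_subset_card_eq hlow
  refine ⟨S \ X0, sdiff_subset, ?_, ?_⟩
  · rw [card_sdiff_of_subset (hX0.trans hXS), hX0c]
  · intro v hv hvR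
    have hvX0 : v ∈ X0 := by
      by_contra h
      exact hvR (mem_sdiff.2 ⟨hv, h⟩)
    have hvX := hX0 hvX0
    have hvM := hXM hvX
    refine ⟨⟨a v, mem_sdiff.2 ⟨(ha v hvM).1, fun h => (hXi v hvX).1 (hX0 h)⟩, (ha v hvM).2.2⟩,
      ⟨b v, mem_sdiff.2 ⟨(hb v hvM).1, fun h => (hXi v hvX).2 (hX0 h)⟩, (hb v hvM).2.2⟩⟩

/-- A mixture of two different cliques has no large clique. -/
theorem fooling {A : Finset (Edge n)} {R S S' Q : Finset (Fin n)} (hc : S.card = S'.card)
    (hk : 3 ≤ S.card) (hne : S ≠ S') (hR : R ⊆ S) (hR' : R ⊆ S')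
    (hb : ∀ v ∈ S, v ∉ R → ∃ r ∈ R, ∃ e, e ∉ A ∧ Joins e v r)
    (ha : ∀ v ∈ S', v ∉ R → ∃ r ∈ R, ∃ e ∈ A, Joins e v r)
    (hQ : IsClique (mix A (cg S) (cg S')) Q) (hQc : S.card ≤ Q.card) : False := by
  classical
  have hmix : ∀ e : Edge n, (mix A (cg S) (cg S') e = true) →
      (e ∈ A → e.1.1 ∈ S ∧ e.1.2 ∈ S) ∧ (e ∉ A → e.1.1 ∈ S' ∧ e.1.2 ∈ S') := by
    intro e he
    unfold mix at he
    refine ⟨fun h => ?_, fun h => ?_⟩
    · rw [if_pos h] at he
      exact cg_eq_true.1 he
    · rw [if_neg h] at he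
      exact cg_eq_true.1 he
  have hj : ∀ (e : Edge n) (u v : Fin n), Joins e u v → u ∈ Q → v ∈ Q →
      (e ∈ A → u ∈ S ∧ v ∈ S) ∧ (e ∉ A → u ∈ S' ∧ v ∈ S') := by
    intro e u v h hu hv
    obtain ⟨h1, h2⟩ := hmix e (hQ.joins h hu hv)
    rcases h with h | h
    · rw [h.1, h.2] at h1 h2
      exact ⟨h1, h2⟩
    · rw [h.1, h.2] at h1 h2
      exact ⟨fun h => (h1 h).symm, fun h => (h2 h).symm⟩
  have hmem : ∀ u ∈ Q, u ∈ S ∨ u ∈ S' := by
    intro u hu
    obtain ⟨v, hv, hvu⟩ : ∃ v ∈ Q, v ≠ u := exists_mem_ne (by omega) u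
    obtain ⟨e, he⟩ := exists_edge hvu.symm
    have := hj e u v he hu hv
    by_cases h : e ∈ A
    · exact Or.inl (this.1 h).1
    · exact Or.inr (this.2 h).1
  have hsub : Q ⊆ S ∨ Q ⊆ S' := by
    by_contra hcon
    rw [not_or, not_subset, not_subset] at hcon
    obtain ⟨⟨u, hu, huS⟩, v, hv, hvS⟩ := hcon
    have huS' : u ∈ S' := (hmem u hu).resolve_left huS
    have huv : u ≠ v := by
      rintro rfl
      exact hvS huS'
    obtain ⟨e, he⟩ := exists_edge huv
    have := hj e u v he hu hv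
    by_cases h : e ∈ A
    · exact huS (this.1 h).1
    · exact hvS (this.2 h).2
  rcases hsub with h | h
  · have hQS : Q = S := eq_of_subset_of_card_le h hQc
    subst hQS
    obtain ⟨v, hv, hvS'⟩ : ∃ v ∈ Q, v ∉ S' := by
      by_contra hcon
      push Not at hcon
      exact hne (eq_of_subset_of_card_le hcon hc.symm.le)
    obtain ⟨r, hr, e, he, hjn⟩ := hb v hv fun h => hvS' (hR' h)
    exact hvS' ((hj e v r hjn hv (hR hr)).2 he).1
  · have hQS : Q = S' := eq_of_subset_of_card_le h (by omega)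
    subst hQS
    obtain ⟨v, hv, hvS⟩ : ∃ v ∈ Q, v ∉ S := by
      by_contra hcon
      push Not at hcon
      exact hne (eq_of_subset_of_card_le hcon hc.le).symm
    obtain ⟨r, hr, e, he, hjn⟩ := ha v hv fun h => hvS (hR h)
    exact hvS ((hj e v r hjn hv (hR' hr)).1 he).1

/-- The number of `k`-cliques accepted by one network. -/
theorem exact_net {K W : Type} [Field K] [Fintype W] (T : Net K (Edge n) Bool W) (a : W → K)
    (h1 : ∀ e, T.reads e ≤ 1) {k : ℕ} (hk : 3 ≤ k)
    (h0 : ∀ x, T.value a x ≠ 0 → ∃ Q, IsClique x Q ∧ k ≤ Q.card)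
    (s : Finset (Finset (Fin n))) (hs : ∀ S ∈ s, S.card = k ∧ T.value a (cg S) ≠ 0) :
    s.card ≤ n ^ 2 * n ^ (k - (k + 8) / 9) * Fintype.card W := by
  classical
  rcases s.eq_empty_or_nonempty with rfl | ⟨S0, hS0⟩
  · simp
  have hW : Nonempty W := by
    by_contra hW
    rw [not_nonempty_iff] at hW
    exact (hs S0 hS0).2 (by unfold Net.value; simp)
  obtain ⟨T', hr, he, -⟩ := exists_ext T h1
  have hv : ∀ x, T'.value a x = T.value a x := by
    intro x
    unfold Net.value
    rw [he]
  have hcut := cutsv_cut T' a fun v => (hr v).le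
  have key : ∀ S ∈ s, ∃ q : Finset (Edge n) × Finset (Fin n), (q.1 ∈ cutsv T' ∧
      q.2 ∈ powersetCard (k - (k + 8) / 9) (univ : Finset (Fin n))) ∧ q.2 ⊆ S ∧
      ∀ v ∈ S, v ∉ q.2 → (∃ r ∈ q.2, ∃ e ∈ q.1, Joins e v r) ∧
        (∃ r ∈ q.2, ∃ e, e ∉ q.1 ∧ Joins e v r) := by
    intro S hS
    have hSk := (hs S hS).1
    have hed : 2 ≤ (ed S).card := by
      have := card_ed S
      rw [hSk] at this
      nlinarith
    have huniv : rdv T' = univ := by
      ext v
      rw [mem_rdv, hr v]
      simp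
    obtain ⟨A, hA, h2, h3⟩ := balanced (ed S) hed T' (by
      rw [huniv, inter_univ]
      omega)
    obtain ⟨R, hR, hRc, hRv⟩ := core S A (by omega) h2 h3
    exact ⟨(A, R), ⟨hA, mem_powersetCard.2 ⟨subset_univ _, by rw [hRc, hSk]⟩⟩, hR, hRv⟩
  choose! c hc using key
  have hcount := card_le_labels s (cutsv T' ×ˢ powersetCard (k - (k + 8) / 9) univ) c
    (fun S hS => mem_product.2 (hc S hS).1) (Fintype.card W) (by
      intro b hb
      refine card_le_rank (hcut b.1 (mem_product.1 hb).1) _ (fun S => cg S) ?_ ?_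
      · intro S hS
        rw [mem_filter] at hS
        rw [hv]
        exact (hs S hS.1).2
      · intro S hS S' hS' hne
        rw [mem_filter] at hS hS'
        by_contra hcon
        rw [hv] at hcon
        obtain ⟨Q, hQ, hQc⟩ := h0 _ hcon
        have e1 := (hs S hS.1).1
        have e2 := (hs S' hS'.1).1
        have f1 := (hc S hS.1).2
        have f2 := (hc S' hS'.1).2
        rw [hS.2] at f1
        rw [hS'.2] at f2
        exact fooling (e1.trans e2.symm) (by omega) hne f1.1 f2.1 (fun v hv hvR => (f1.2 v hv hvR).2)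
          (fun v hv hvR => (f2.2 v hv hvR).1) hQ (by omega))
  refine hcount.trans (Nat.mul_le_mul_right _ ?_)
  rw [card_product]
  refine Nat.mul_le_mul ?_ (card_powersetCard_le _)
  have g1 := card_cutsv T'
  have g2 := size_of_once T' hr
  omega

end Pool.Agent.Helper41.TC
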