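import Pool.Agent.Helper41.TC.Exact

/-!
# The gap clique problem: partitions of the edges and codes of cliques
-/

set_option autoImplicit false

open Finset

namespace Pool.Agent.Helper41.TC

open Pool.Agent.TH700.PA

variable {n : ℕ}

/-- A large family of `k`-sets contains a large code. -/
theorem exists_code {k D : ℕ} (hD : D + 1 ≤ k) (s : Finset (Finset (Fin n)))
    (hs : ∀ S ∈ s, S.card = k) :
    ∃ C ⊆ s, (∀ S ∈ C, ∀ S' ∈ C, S ≠ S' → (S ∩ S').card ≤ D) ∧
      s.card ≤ C.card * (2 ^ k * n ^ (k - (D + 1))) := by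
  classical
  -- a maximal code
  obtain ⟨C, hC, hmax⟩ := exists_max_image (s.powerset.filter
      (fun C : Finset (Finset (Fin n)) => ∀ S ∈ C, ∀ S' ∈ C, S ≠ S' → (S ∩ S').card ≤ D)) card
    ⟨∅, mem_filter.2 ⟨empty_mem_powerset s, fun S hS => absurd hS (notMem_empty S)⟩⟩
  rw [mem_filter, mem_powerset] at hC
  refine ⟨C, hC.1, hC.2, ?_⟩
  have hcov : ∀ S ∈ s, ∃ S' ∈ C, D + 1 ≤ (S ∩ S').card := by
    intro S hS
    by_cases hSC : S ∈ C
    · exact ⟨S, hSC, by rw [inter_self, hs S hS]; exact hD⟩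
    by_contra hcon
    push Not at hcon
    have h := hmax (insert S C) (by
      rw [mem_filter, mem_powerset]
      refine ⟨insert_subset hS hC.1, ?_⟩
      intro A hA B hB hAB
      rw [mem_insert] at hA hB
      rcases hA with rfl | hA
      · rcases hB with rfl | hB
        · exact absurd rfl hAB
        · exact Nat.lt_succ_iff.1 (hcon B hB)
      · rcases hB with rfl | hB
        · rw [inter_comm]
          exact Nat.lt_succ_iff.1 (hcon A hA)
        · exact hC.2 A hA B hB hAB)
    rw [card_insert_of_notMem hSC] at h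
    omega
  choose! c hc using hcov
  refine card_le_labels s C c (fun S hS => (hc S hS).1) _ ?_
  intro S' hS'
  -- the sets that share `D + 1` elements with `S'`
  have hS'k : S'.card = k := hs S' (hC.1 hS')
  have key : ∀ S ∈ s.filter (fun S => c S = S'), ∃ Y ∈ S'.powerset, Y ⊆ S ∧ Y.card = D + 1 := by
    intro S hS
    rw [mem_filter] at hS
    have h1 := (hc S hS.1).2
    rw [hS.2] at h1
    obtain ⟨Y, hY, hYc⟩ := exists_subset_card_eq h1
    exact ⟨Y, mem_powerset.2 (hY.trans inter_subset_right), hY.trans inter_subset_left, hYc⟩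
  choose! y hy using key
  have h2 := card_le_labels (s.filter (fun S => c S = S')) S'.powerset y (fun S hS => (hy S hS).1)
    (n ^ (k - (D + 1))) (by
      intro Y hY
      refine le_trans ?_ (card_powersetCard_le (n := n) (k - (D + 1)))
      refine card_le_card_of_injOn (fun S => S \ Y) ?_ ?_
      · intro S hS
        rw [mem_coe, mem_filter] at hS
        have h3 := hy S hS.1
        rw [hS.2] at h3
        rw [mem_coe, mem_powersetCard]
        refine ⟨subset_univ _, ?_⟩
        rw [card_sdiff_of_subset h3.2.1, h3.2.2, hs S (mem_filter.1 hS.1).1]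
      · intro S hS A hA hSA
        rw [mem_coe, mem_filter] at hS hA
        have h3 := hy S hS.1
        rw [hS.2] at h3
        have h4 := hy A hA.1
        rw [hA.2] at h4
        simp only at hSA
        rw [← sdiff_union_of_subset h3.2.1, ← sdiff_union_of_subset h4.2.1, hSA])
  rw [card_powerset, hS'k] at h2
  exact h2

/-- A clique in a mixture of almost disjoint cliques is small. -/
theorem mixture {t g k D θ : ℕ} (hg : 1 ≤ g) (hk : 8 * g < k) (hθ : 32 * g ^ 2 * θ ≤ k ^ 2 + 32 * g ^ 2)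
    (hD : 2 * g * t ^ 2 * D ≤ k) (p : Edge n → Fin t) (S : Fin t → Finset (Fin n))
    (hE : ∀ j, ((ed (S j)).filter (fun e => p e = j)).card ≤ 2 * θ)
    (hS : ∀ i j, i ≠ j → (S i ∩ S j).card ≤ D) (Q : Finset (Fin n))
    (hQ : IsClique (fun e => cg (S (p e)) e) Q) (hQk : k ≤ g * Q.card) : False := by
  classical
  have hQ2 : 2 ≤ Q.card := by
    by_contra h
    have : g * Q.card ≤ g * 1 := Nat.mul_le_mul_left g (by omega)
    omega
  have hj : ∀ (e : Edge n) (u v : Fin n), Joins e u v → u ∈ Q → v ∈ Q →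
      u ∈ S (p e) ∧ v ∈ S (p e) := by
    intro e u v h hu hv
    have h1 : cg (S (p e)) e = true := hQ.joins h hu hv
    exact h.cg.1 h1
  -- the vertices in two of the sets
  set Q2 : Finset (Fin n) := (univ : Finset (Fin t × Fin t)).biUnion
    (fun q => if q.1 = q.2 then ∅ else S q.1 ∩ S q.2) with hQ2def
  have hQ2c : Q2.card ≤ t ^ 2 * D := by
    refine card_biUnion_le.trans ?_
    calc ∑ q : Fin t × Fin t, (if q.1 = q.2 then ∅ else S q.1 ∩ S q.2).card
        ≤ ∑ _q : Fin t × Fin t, D := by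
          refine sum_le_sum fun q _ => ?_
          split_ifs with h
          · simp
          · exact hS _ _ h
      _ = t ^ 2 * D := by
          rw [sum_const, card_univ, Fintype.card_prod, Fintype.card_fin, smul_eq_mul, pow_two]
  set U : Finset (Fin n) := Q \ Q2 with hU
  have hUQ : Q.card ≤ U.card + Q2.card := by
    have := le_card_sdiff Q2 Q
    rw [hU]
    omega
  have hUk : k ≤ 2 * g * U.card := by
    have h1 : 2 * (g * Q2.card) ≤ k := by
      calc 2 * (g * Q2.card) ≤ 2 * (g * (t ^ 2 * D)) := by gcongr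
        _ = 2 * g * t ^ 2 * D := by ring
        _ ≤ k := hD
    have h2 : g * Q.card ≤ g * U.card + g * Q2.card := by
      rw [← mul_add]
      exact Nat.mul_le_mul_left g hUQ
    have h3 : 2 * g * U.card = 2 * (g * U.card) := by ring
    omega
  have hU5 : 5 ≤ U.card := by
    by_contra h
    have : 2 * g * U.card ≤ 2 * g * 4 := Nat.mul_le_mul_left _ (by omega)
    omega
  -- every vertex of `U` lies in one set only
  have huniq : ∀ u ∈ U, ∀ i j, u ∈ S i → u ∈ S j → i = j := by
    intro u hu i j hi hj'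
    by_contra hij
    refine (mem_sdiff.1 hu).2 ?_
    rw [hQ2def, mem_biUnion]
    exact ⟨(i, j), mem_univ _, by simp only; rw [if_neg hij]; exact mem_inter.2 ⟨hi, hj'⟩⟩
  obtain ⟨u0, hu0⟩ : U.Nonempty := card_pos.1 (by omega)
  obtain ⟨v0, hv0, hvu0⟩ : ∃ v ∈ U, v ≠ u0 := exists_mem_ne (by omega) u0
  obtain ⟨e0, he0⟩ := exists_edge hvu0.symm
  have h0 := hj e0 u0 v0 he0 (mem_sdiff.1 hu0).1 (mem_sdiff.1 hv0).1
  set j0 := p e0 with hj0
  -- all edges at `u0`
  have hall : ∀ u ∈ U, u ∈ S j0 := by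
    intro u hu
    by_cases huu : u = u0
    · rw [huu]; exact h0.1
    obtain ⟨e, he⟩ := exists_edge huu
    have h1 := hj e u u0 he (mem_sdiff.1 hu).1 (mem_sdiff.1 hu0).1
    have h2 := huniq u0 hu0 _ _ h1.2 h0.1
    rw [← h2]
    exact h1.1
  have hsub : ed U ⊆ (ed (S j0)).filter (fun e => p e = j0) := by
    intro e he
    have h1 := mem_ed.1 he
    rw [mem_filter, mem_ed]
    refine ⟨⟨hall _ h1.1, hall _ h1.2⟩, ?_⟩
    have h2 := hj e _ _ (joins_self e) (mem_sdiff.1 h1.1).1 (mem_sdiff.1 h1.2).1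
    exact huniq _ h1.1 _ _ h2.1 (hall _ h1.1)
  have hcard := (card_le_card hsub).trans (hE j0)
  have h1 := card_ed U
  have h2 : k ^ 2 ≤ 4 * g ^ 2 * U.card ^ 2 := by
    calc k ^ 2 ≤ (2 * g * U.card) ^ 2 := Nat.pow_le_pow_left hUk 2
      _ = _ := by ring
  generalize U.card = u at *
  generalize (ed U).card = q at *
  -- `8 g² u (u - 1) ≤ 32 g² θ ≤ k² + 32 g²`
  have h3 : 8 * g ^ 2 * (u * u) ≤ 8 * g ^ 2 * (4 * θ + u) :=
    Nat.mul_le_mul_left _ (by omega)
  have h4 : 8 * g ^ 2 * (u * u) ≤ (4 * g ^ 2 * u ^ 2 + 32 * g ^ 2) + 8 * g ^ 2 * u := by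
    calc 8 * g ^ 2 * (u * u) ≤ 8 * g ^ 2 * (4 * θ + u) := h3
      _ = 32 * g ^ 2 * θ + 8 * g ^ 2 * u := by ring
      _ ≤ (k ^ 2 + 32 * g ^ 2) + 8 * g ^ 2 * u := by omega
      _ ≤ _ := by omega
  have h5 : g ^ 2 * (4 * (u * u)) ≤ g ^ 2 * (32 + 8 * u) := by
    nlinarith
  have h6 : 4 * (u * u) ≤ 32 + 8 * u := Nat.le_of_mul_le_mul_left h5 (by positivity)
  nlinarith

/-- The number of `k`-cliques accepted by one network. -/
theorem gap_net {K W : Type} [Field K] [Fintype W] (T : Net K (Edge n) Bool W) (a : W → K)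
    (h1 : ∀ e, T.reads e ≤ 1) {g k : ℕ} (hg : 1 ≤ g) (hk : 8 * g < k)
    (h0 : ∀ x, T.value a x ≠ 0 → ∃ Q, IsClique x Q ∧ k ≤ g * Q.card)
    (s : Finset (Finset (Fin n))) (hs : ∀ S ∈ s, S.card = k ∧ T.value a (cg S) ≠ 0) :
    s.card ≤ n ^ (6 * (32 * g ^ 2 + 1)) * (((32 * g ^ 2 + 1) * Fintype.card W ^ 3) *
      (2 ^ k * n ^ (k - (k / (2 * g * (32 * g ^ 2 + 1) ^ 2) + 1)))) := by
  classical
  rcases s.eq_empty_or_nonempty with rfl | ⟨S0, hS0⟩
  · simp
  have hW : Nonempty W := by
    by_contra hW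
    rw [not_nonempty_iff] at hW
    exact (hs S0 hS0).2 (by unfold Net.value; simp)
  obtain ⟨T', hr, he, -⟩ := exists_ext T h1
  have hv : ∀ x, T'.value a x = T.value a x := by
    intro x
    unfold Net.value
    rw [he]
  have hcut := cutsv_cut T' a fun v => (hr v).le
  set t : ℕ := 32 * g ^ 2 + 1 with ht
  set D : ℕ := k / (2 * g * t ^ 2) with hD
  set θ : ℕ := k ^ 2 / (32 * g ^ 2) + 1 with hθ
  have hg2 : 0 < 32 * g ^ 2 := by positivity
  have hDk : 2 * g * t ^ 2 * D ≤ k := Nat.mul_div_le _ _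
  have hD1 : D + 1 ≤ k := by
    have h2 : 2 * D ≤ 2 * g * t ^ 2 * D := by
      refine Nat.mul_le_mul_right D ?_
      have : 1 ≤ g * t ^ 2 := Nat.mul_pos hg (by positivity)
      nlinarith
    omega
  have hθ1 : 32 * g ^ 2 * θ ≤ k ^ 2 + 32 * g ^ 2 := by
    have := Nat.mul_div_le (k ^ 2) (32 * g ^ 2)
    rw [hθ, mul_add, mul_one]
    omega
  have hθ2 : k ^ 2 ≤ 32 * g ^ 2 * θ := by
    have := Nat.lt_mul_div_succ (k ^ 2) hg2
    rw [hθ]
    omega
  have hd : 1 ≤ Fintype.card W := Fintype.card_pos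
  -- a partition for every accepted clique
  have key : ∀ S ∈ s, ∃ P : Fin t → Finset (Edge n), (∀ j, P j ∈ cand T' ∧
      Rk (Fintype.card W * (Fintype.card W * Fintype.card W)) (fun z => T'.value a z) (P j) ∧
      (ed S ∩ P j).card ≤ 2 * θ) ∧ (∀ i j, i ≠ j → Disjoint (P i) (P j)) ∧
      ∀ v, ∃ j, v ∈ P j := by
    intro S hS
    refine exists_parts hd (ed S) (by rw [hθ]; exact Nat.le_add_left 1 _) T' hr (fun A hA => rk_of_cut (hcut A hA)) ?_
    have h2 := card_ed S
    rw [(hs S hS).1] at h2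
    have h3 : θ * t = 32 * g ^ 2 * θ + θ := by rw [ht]; ring
    have h4 : k * k = k ^ 2 := by ring
    omega
  choose! c hc using key
  have hcand : (Fintype.piFinset fun _ : Fin t => cand T').card ≤ n ^ (6 * t) := by
    rw [Fintype.card_piFinset_const]
    calc (cand T').card ^ t ≤ ((n ^ 2) ^ 3) ^ t := by
          refine Nat.pow_le_pow_left ?_ t
          exact (card_cand T').trans (Nat.pow_le_pow_left (size_of_once T' hr) 3)
      _ = n ^ (6 * t) := by
          rw [← pow_mul, ← pow_mul]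
          congr 1
          ring
  have hcount := card_le_labels s (Fintype.piFinset fun _ : Fin t => cand T') c
    (fun S hS => Fintype.mem_piFinset.2 fun j => ((hc S hS).1 j).1)
    ((t * Fintype.card W ^ 3) * (2 ^ k * n ^ (k - (D + 1)))) (by
      intro P hP
      set F := s.filter (fun S => c S = P) with hF
      rcases F.eq_empty_or_nonempty with hFe | ⟨S1, hS1⟩
      · rw [hFe]; simp
      have hFs : ∀ S ∈ F, S ∈ s := fun S hS => (mem_filter.1 hS).1
      have hFP : ∀ S ∈ F, c S = P := fun S hS => (mem_filter.1 hS).2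
      have hP1 := hc S1 (hFs S1 hS1)
      rw [hFP S1 hS1] at hP1
      obtain ⟨C, hCF, hCD, hCc⟩ := exists_code hD1 F fun S hS => (hs S (hFs S hS)).1
      refine hCc.trans (Nat.mul_le_mul_right _ ?_)
      choose p hp using hP1.2.2
      have hpj : ∀ j, univ.filter (fun e => p e = j) = P j := by
        intro j
        ext e
        rw [mem_filter]
        refine ⟨fun h => h.2 ▸ hp e, fun h => ⟨mem_univ _, ?_⟩⟩
        by_contra hne
        exact disjoint_left.1 (hP1.2.1 _ _ hne) (hp e) h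
      have hrep := replacement (f := fun z => T'.value a z) p (fun j => by
        rw [hpj j]
        exact (hP1.1 j).2.1) C (fun S => cg S) (fun S hS => by
          rw [hv]
          exact (hs S (hFs S (hCF hS))).2) (by
        intro b hb hinj
        by_contra hcon
        rw [hv] at hcon
        obtain ⟨Q, hQ, hQk⟩ := h0 _ hcon
        refine mixture hg hk hθ1 hDk p b ?_ ?_ Q hQ hQk
        · intro j
          have h2 := (hc (b j) (hFs _ (hCF (hb j)))).1 j
          rw [hFP _ (hCF (hb j))] at h2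
          refine le_trans (card_le_card ?_) h2.2.2
          intro e he
          rw [mem_filter] at he
          rw [mem_inter]
          refine ⟨he.1, ?_⟩
          rw [← he.2]
          exact hp e
        · intro i j hij
          exact hCD _ (hb i) _ (hb j) fun h => hij (hinj h))
      calc C.card ≤ t * (Fintype.card W * (Fintype.card W * Fintype.card W)) := hrep
        _ = t * Fintype.card W ^ 3 := by ring)
  exact hcount.trans (Nat.mul_le_mul_right _ hcand)

end Pool.Agent.Helper41.TC
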